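import Mathlib
import Pool.Agent.H587.FD.Unif3

set_option autoImplicit false

open Finset MeasureTheory Filter Topology

namespace Pool.Agent.H587.GA

open Pool.Agent.H587.FD

/-- pairs `(α, β)` for which the liminf with the factor `(log q)^c` is positive, for some shift -/
def Exc (Γ : Set ℝ) (c : ℝ) : Set (ℝ × ℝ) :=
  {p | ∃ γ ∈ Γ, ∃ κ : ℝ, 0 < κ ∧ ∃ N : ℕ, ∀ q : ℕ, N ≤ q → 1 ≤ q →
    κ ≤ q * Real.log q ^ c * (dist1 (q * p.1) * dist1 (q * p.2 - γ))}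

/-- no very good solution at stage `m` -/
def St (g : ℕ) (s : ℝ) (Γ : Set ℝ) (m : ℕ) (p : ℝ × ℝ) : Prop :=
  Dio2 p.1 m (Km g s m) ∧ ∃ γ ∈ Γ, ∀ q : ℕ, m ≤ q → (q : ℝ) ≤ 128 ^ Km g s m →
    4 * (6144000 / (m : ℝ) ^ 2) < q * (dist1 (q * p.1) * dist1 (q * p.2 - γ))

lemma exc_stage (g : ℕ) (s c : ℝ) (hs : 0 < s) (hc : 0 < c) (hsc : (1 + s) * c < 2) (Γ : Set ℝ)
    (p : ℝ × ℝ) (hp : p ∈ Exc Γ c) : ∃ M : ℕ, ∀ m, M ≤ m → St g s Γ m p := by
  obtain ⟨γ, hγ, κ, hκ, N, hN⟩ := hp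
  set α := p.1 with hα
  set β := p.2 with hβ
  have hlow : ∀ q : ℕ, N ≤ q → 1 ≤ q → κ ≤ q * Real.log q ^ c * dist1 (q * α) := by
    intro q h1 h2
    refine (hN q h1 h2).trans ?_
    have h4 : dist1 (q * β - γ) ≤ 1 := (dist1_le _).trans (by norm_num)
    have h5 := dist1_nonneg (q * α)
    have h7 : 0 ≤ Real.log q := Real.log_natCast_nonneg q
    calc q * Real.log q ^ c * (dist1 (q * α) * dist1 (q * β - γ)) ≤
        q * Real.log q ^ c * (dist1 (q * α) * 1) := by gcongr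
      _ = _ := by ring
  have hirr : ∀ q : ℕ, 1 ≤ q → 0 < dist1 (q * α) := by
    intro q hq
    by_contra h0
    have h1 : dist1 (q * α) = 0 := le_antisymm (not_lt.1 h0) (dist1_nonneg _)
    have h2 : (q : ℝ) * α = round (q * α) := by
      unfold dist1 at h1
      linarith [abs_eq_zero.1 h1]
    set k := N + 1 with hk
    have h3 := hlow (k * q) (by rw [hk]; nlinarith) (by rw [hk]; nlinarith)
    have h4 : dist1 (((k * q : ℕ) : ℝ) * α) = 0 := by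
      have h5 := dist1_le_abs (((k * q : ℕ) : ℝ) * α) (k * round ((q : ℝ) * α))
      have h6 : ((k * q : ℕ) : ℝ) * α - ((k * round ((q : ℝ) * α) : ℤ) : ℝ) = 0 := by
        push_cast
        rw [← h2]; ring
      rw [h6, abs_zero] at h5
      exact le_antisymm h5 (dist1_nonneg _)
    rw [h4, mul_zero] at h3
    linarith
  obtain ⟨k, hk⟩ := dio_eventually α g s c hs hc hsc hirr κ hκ N hlow
  have t1 : Tendsto (fun m : ℕ => 4 * 6144000 * (15 * g : ℝ) ^ c * (m : ℝ) ^ (-(2 - (1 + s) * c)))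
      atTop (𝓝 0) := by
    have := ((tendsto_rpow_neg_atTop (y := 2 - (1 + s) * c) (by linarith)).comp
      (tendsto_natCast_atTop_atTop (R := ℝ))).const_mul (4 * 6144000 * (15 * g : ℝ) ^ c)
    simpa using this
  obtain ⟨M, hM⟩ := eventually_atTop.1 ((t1.eventually_lt_const hκ).and
    ((eventually_ge_atTop 2).and (eventually_ge_atTop (max N k))))
  refine ⟨M, fun m hm => ?_⟩
  obtain ⟨h1, h2, h3⟩ := hM m hm
  have hm1 : 1 ≤ m := by omega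
  have hm0 : (0 : ℝ) < m := by exact_mod_cast hm1
  refine ⟨hk m ((le_max_right _ _).trans h3), γ, hγ, fun q hq1 hq2 => ?_⟩
  have hNq : N ≤ q := ((le_max_left _ _).trans h3).trans hq1
  have hq0 : 1 ≤ q := hm1.trans hq1
  have h4 := hN q hNq hq0
  by_contra h5
  push Not at h5
  have hlog : Real.log q ^ c ≤ (5 * (Km g s m : ℝ)) ^ c := by
    have := Real.log_natCast_nonneg q
    gcongr
    exact log_le_scale q _ hq0 hq2
  have hd : 0 ≤ q * (dist1 (q * α) * dist1 (q * β - γ)) :=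
    mul_nonneg (by positivity) (mul_nonneg (dist1_nonneg _) (dist1_nonneg _))
  have h6 : κ ≤ ((15 * g) ^ c * (m : ℝ) ^ ((1 + s) * c)) * (4 * (6144000 / (m : ℝ) ^ 2)) := by
    calc κ ≤ q * Real.log q ^ c * (dist1 (q * α) * dist1 (q * β - γ)) := h4
      _ = Real.log q ^ c * (q * (dist1 (q * α) * dist1 (q * β - γ))) := by ring
      _ ≤ _ := mul_le_mul (hlog.trans (scale_pow g m hm1 s c hs hc)) h5 hd (by positivity)
  have h7 : ((15 * g) ^ c * (m : ℝ) ^ ((1 + s) * c)) * (4 * (6144000 / (m : ℝ) ^ 2)) =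
      4 * 6144000 * (15 * g : ℝ) ^ c * (m : ℝ) ^ (-(2 - (1 + s) * c)) := by
    have e1 : (m : ℝ) ^ (-(2 - (1 + s) * c)) = (m : ℝ) ^ ((1 + s) * c) / (m : ℝ) ^ 2 := by
      rw [show -(2 - (1 + s) * c) = (1 + s) * c - 2 by ring, Real.rpow_sub hm0, Real.rpow_two]
    rw [e1]
    field_simp
  rw [h7] at h6
  linarith

/-- the grid interval -/
def Iv (ρ : ℝ) (k : ℤ) : Set ℝ := Set.Ico (k * ρ) (k * ρ + ρ)

lemma mem_Iv_floor (ρ : ℝ) (hρ : 0 < ρ) (x : ℝ) : x ∈ Iv ρ ⌊x / ρ⌋ := by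
  unfold Iv
  constructor
  · have := Int.floor_le (x / ρ)
    rwa [le_div_iff₀ hρ] at this
  · have := Int.lt_floor_add_one (x / ρ)
    rw [div_lt_iff₀ hρ] at this
    linarith

lemma Iv_eq (ρ : ℝ) (hρ : 0 < ρ) (x : ℝ) (k : ℤ) (h : x ∈ Iv ρ k) : k = ⌊x / ρ⌋ := by
  symm
  rw [Int.floor_eq_iff]
  obtain ⟨h1, h2⟩ := h
  constructor
  · rwa [le_div_iff₀ hρ]
  · rw [div_lt_iff₀ hρ]; linarith

lemma Iv_disj (ρ : ℝ) (hρ : 0 < ρ) : Pairwise (Function.onFun Disjoint (Iv ρ)) := by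
  intro k l hkl
  rw [Function.onFun, Set.disjoint_left]
  intro x h1 h2
  exact hkl ((Iv_eq ρ hρ x k h1).trans (Iv_eq ρ hρ x l h2).symm)

lemma Iv_dist (ρ : ℝ) (k : ℤ) (x y : ℝ) (hx : x ∈ Iv ρ k) (hy : y ∈ Iv ρ k) : |x - y| ≤ ρ := by
  obtain ⟨h1, h2⟩ := hx
  obtain ⟨h3, h4⟩ := hy
  rw [abs_le]
  constructor <;> linarith

lemma dist1_lip (x y : ℝ) : dist1 x ≤ dist1 y + |x - y| := by
  have h1 := dist1_le_abs x (round y)
  have h2 : x - round y = (y - round y) + (x - y) := by ring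
  rw [h2] at h1
  exact h1.trans (abs_add_le _ _)

/-- the cells meeting the exceptional set of stage `m` -/
def P (g : ℕ) (s : ℝ) (Γ : Set ℝ) (m : ℕ) (ρ : ℝ) (k l : ℤ) : Prop :=
  ∃ p : ℝ × ℝ, p.1 ∈ Iv ρ k ∧ p.2 ∈ Iv ρ l ∧ St g s Γ m p

lemma inclusion (g : ℕ) (hg : 1 ≤ g) (s : ℝ) (m : ℕ) (hm : 2500 ≤ m) (ρ : ℝ)
    (hρ : ρ = 1 / 128 ^ (3 * Km g s m)) (k l : ℤ) (p : ℝ × ℝ)
    (h1 : p.1 ∈ Iv ρ k) (h2 : p.2 ∈ Iv ρ l) (γ γ' : ℝ) (n' : ℤ) (hγ : |γ - γ' - n'| ≤ 1 / 128 ^ (6 * m))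
    (h3 : ∀ q : ℕ, m ≤ q → (q : ℝ) ≤ 128 ^ Km g s m →
      4 * (6144000 / (m : ℝ) ^ 2) < q * (dist1 (q * p.1) * dist1 (q * p.2 - γ)))
    (a : ℝ) (ha : a ∈ Iv ρ k) : Iv ρ l ⊆ NoHit g s m a γ' := by
  intro β' hβ'
  by_contra hno
  have hd := Iv_dist ρ k p.1 a h1 ha
  obtain ⟨q, hq1, hq2, hq3⟩ := transfer g hg s m hm p.1 γ a γ' β' 0 n' (by
    rw [Int.cast_zero, sub_zero]
    refine hd.trans ?_
    rw [hρ]
    have : (0 : ℝ) ≤ 1 / 128 ^ (3 * Km g s m) := by positivity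
    linarith) hγ hno
  have h4 := h3 q hq1 hq2
  obtain ⟨f1, f2, f3, f4, f5⟩ := m_facts m hm
  set κ : ℝ := 6144000 / (m : ℝ) ^ 2 with hκ
  set K := Km g s m with hK
  have h5 := dist1_lip ((q : ℝ) * p.2 - γ) (q * β' - γ)
  have h6 : |(q : ℝ) * p.2 - γ - (q * β' - γ)| ≤ 128 ^ K * ρ := by
    have e1 : (q : ℝ) * p.2 - γ - (q * β' - γ) = q * (p.2 - β') := by ring
    rw [e1, abs_mul, Nat.abs_cast]
    have := Iv_dist ρ l p.2 β' h2 hβ'
    gcongr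
  have h7 := dist1_nonneg ((q : ℝ) * p.1)
  have h8 := dist1_le ((q : ℝ) * p.1)
  have h9 : (q : ℝ) * (dist1 (q * p.1) * dist1 (q * p.2 - γ)) ≤
      q * (dist1 (q * p.1) * dist1 (q * β' - γ)) + 128 ^ K * (1 * (128 ^ K * ρ)) := by
    calc (q : ℝ) * (dist1 (q * p.1) * dist1 (q * p.2 - γ)) ≤
        q * (dist1 (q * p.1) * (dist1 (q * β' - γ) + 128 ^ K * ρ)) := by
          gcongr
          linarith
      _ = q * (dist1 (q * p.1) * dist1 (q * β' - γ)) + q * (dist1 (q * p.1) * (128 ^ K * ρ)) := by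
          ring
      _ ≤ _ := by
          have hρ0 : 0 ≤ ρ := by rw [hρ]; positivity
          gcongr
          linarith
  have h10 : (128 : ℝ) ^ K * (1 * (128 ^ K * ρ)) ≤ κ := by
    have e1 : (128 : ℝ) ^ K * (1 * (128 ^ K * ρ)) = 1 / 128 ^ K := by
      rw [hρ]
      have : (128 : ℝ) ^ (3 * K) = 128 ^ K * 128 ^ K * 128 ^ K := by
        rw [← pow_add, ← pow_add]; congr 1; ring
      rw [this]
      field_simp
    rw [e1]
    have hmK : m ≤ K := by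
      rw [hK]; unfold Km
      calc m = 1 * m * 1 := by ring
        _ ≤ g * m * (⌈(m : ℝ) ^ s⌉₊ + 1) := by gcongr; omega
    have h11 : (128 : ℝ) ^ m ≤ 128 ^ K := pow_le_pow_right₀ (by norm_num) hmK
    rw [div_le_iff₀ (by positivity)]
    rw [div_le_iff₀ f1] at f3
    nlinarith
  linarith

theorem stage_sum (μ ν : Measure ℝ) [IsProbabilityMeasure μ] [IsFiniteMeasure ν]
    (C δ : ℝ) (hC : 0 ≤ C) (hδ : 0 < δ)
    (hμ : ∀ n : ℤ, n ≠ 0 → ‖∫ x, e (n * x) ∂μ‖ ≤ C * |(n : ℝ)| ^ (-δ))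
    (g : ℕ) (hg' : 18 ≤ g) (hg : 13 + 11 * δ ≤ δ * g) (s : ℝ) (Γ : Set ℝ) (m : ℕ) (hm : 2500 ≤ m)
    (hCm : C ≤ 128 ^ m) (G : Finset ℝ)
    (hG : ∀ γ ∈ Γ, ∃ γ' ∈ G, ∃ n : ℤ, |γ - γ' - n| ≤ 1 / 128 ^ (6 * m)) (ρ : ℝ)
    (hρ : ρ = 1 / 128 ^ (3 * Km g s m)) :
    ∑' x : ℤ × ℤ, {x : ℤ × ℤ | P g s Γ m ρ x.1 x.2}.indicator
      (fun x => ν (Iv ρ x.1) * μ (Iv ρ x.2)) x ≤
      ν Set.univ * ENNReal.ofReal (G.card * (1 / 4) ^ ⌈(m : ℝ) ^ s⌉₊) := by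
  classical
  have hρ0 : 0 < ρ := by rw [hρ]; positivity
  obtain ⟨f1, f2, f3, f4, f5⟩ := m_facts m hm
  have hmeasI : ∀ k, MeasurableSet (Iv ρ k) := fun k => measurableSet_Ico
  -- the sum over `l`
  have hrow : ∀ k : ℤ, ∑' l : ℤ, (if P g s Γ m ρ k l then μ (Iv ρ l) else 0) ≤
      ENNReal.ofReal (G.card * (1 / 4) ^ ⌈(m : ℝ) ^ s⌉₊) := by
    intro k
    by_cases hD : ∃ a ∈ Iv ρ k, Dio2 a m (Km g s m)
    · obtain ⟨a, ha, hdio⟩ := hD
      have hone : ∀ γ : ℝ, μ (NoHit g s m a γ) ≤ ENNReal.ofReal ((1 / 4) ^ ⌈(m : ℝ) ^ s⌉₊) := by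
        intro γ
        exact stage μ C δ hC hδ hμ g m ⌈(m : ℝ) ^ s⌉₊ hg' hg (by omega) hCm _ f1 f2 f3 f4 a hdio γ
      calc ∑' l : ℤ, (if P g s Γ m ρ k l then μ (Iv ρ l) else 0) ≤
          ∑' l : ℤ, ∑ γ ∈ G, μ (if Iv ρ l ⊆ NoHit g s m a γ then Iv ρ l else ∅) := by
            refine ENNReal.tsum_le_tsum fun l => ?_
            by_cases hP : P g s Γ m ρ k l
            · rw [if_pos hP]
              obtain ⟨p, h1, h2, h3, γ, hγ, h4⟩ := hP
              obtain ⟨γ', hγ', n', hn'⟩ := hG γ hγ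
              have h5 := inclusion g (by omega) s m hm ρ hρ k l p h1 h2 γ γ' n' hn' h4 a ha
              calc μ (Iv ρ l) = μ (if Iv ρ l ⊆ NoHit g s m a γ' then Iv ρ l else ∅) := by
                    rw [if_pos h5]
                _ ≤ _ := single_le_sum (f := fun γ =>
                    μ (if Iv ρ l ⊆ NoHit g s m a γ then Iv ρ l else ∅)) (fun _ _ => bot_le) hγ'
            · rw [if_neg hP]; exact bot_le
        _ = ∑ γ ∈ G, ∑' l : ℤ, μ (if Iv ρ l ⊆ NoHit g s m a γ then Iv ρ l else ∅) := by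
            rw [Summable.tsum_finsetSum]
            intro _ _
            exact ENNReal.summable
        _ ≤ ∑ γ ∈ G, μ (NoHit g s m a γ) := by
            refine sum_le_sum fun γ _ => ?_
            refine (tsum_meas_le_meas_iUnion_of_disjoint μ (fun l => ?_) ?_).trans
              (measure_mono (Set.iUnion_subset fun l => ?_))
            · split_ifs
              · exact hmeasI l
              · exact MeasurableSet.empty
            · intro l l' hll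
              rw [Function.onFun]
              have h1 := Iv_disj ρ hρ0 hll
              rw [Function.onFun] at h1
              split_ifs <;> simp [h1]
            · split_ifs with h
              · exact h
              · exact Set.empty_subset _
        _ ≤ ∑ γ ∈ G, ENNReal.ofReal ((1 / 4) ^ ⌈(m : ℝ) ^ s⌉₊) := sum_le_sum fun γ _ => hone γ
        _ = _ := by
            rw [sum_const, nsmul_eq_mul, ENNReal.ofReal_mul (by positivity), ENNReal.ofReal_natCast]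
    · have : ∀ l, ¬ P g s Γ m ρ k l := by
        rintro l ⟨p, h1, h2, h3, -⟩
        exact hD ⟨p.1, h1, h3⟩
      simp [this]
  calc (∑' x : ℤ × ℤ, {x : ℤ × ℤ | P g s Γ m ρ x.1 x.2}.indicator
        (fun x => ν (Iv ρ x.1) * μ (Iv ρ x.2)) x) =
      ∑' x : ℤ × ℤ, ν (Iv ρ x.1) * (if P g s Γ m ρ x.1 x.2 then μ (Iv ρ x.2) else 0) := by
        refine tsum_congr fun x => ?_
        rw [Set.indicator_apply]
        by_cases h : P g s Γ m ρ x.1 x.2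
        · rw [if_pos h, if_pos (show x ∈ {x : ℤ × ℤ | P g s Γ m ρ x.1 x.2} from h)]
        · rw [if_neg h, if_neg (show ¬ x ∈ {x : ℤ × ℤ | P g s Γ m ρ x.1 x.2} from h), mul_zero]
    _ = ∑' k : ℤ, ∑' l : ℤ, ν (Iv ρ k) * (if P g s Γ m ρ k l then μ (Iv ρ l) else 0) :=
        ENNReal.tsum_prod (f := fun k l => ν (Iv ρ k) * (if P g s Γ m ρ k l then μ (Iv ρ l) else 0))
    _ = ∑' k : ℤ, ν (Iv ρ k) * ∑' l : ℤ, (if P g s Γ m ρ k l then μ (Iv ρ l) else 0) := by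
        refine tsum_congr fun k => ?_
        rw [ENNReal.tsum_mul_left]
    _ ≤ ∑' k : ℤ, ν (Iv ρ k) * ENNReal.ofReal (G.card * (1 / 4) ^ ⌈(m : ℝ) ^ s⌉₊) :=
        ENNReal.tsum_le_tsum fun k => by gcongr; exact hrow k
    _ = (∑' k : ℤ, ν (Iv ρ k)) * ENNReal.ofReal (G.card * (1 / 4) ^ ⌈(m : ℝ) ^ s⌉₊) :=
        ENNReal.tsum_mul_right
    _ ≤ _ := by
        gcongr
        exact (tsum_meas_le_meas_iUnion_of_disjoint ν hmeasI (Iv_disj ρ hρ0)).trans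
          (measure_mono (Set.subset_univ _))

end Pool.Agent.H587.GA
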