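import Mathlib
import Pool.Agent.H587.GA.Gauge

set_option autoImplicit false

open Finset MeasureTheory Filter Topology

namespace Pool.Agent.H587.GA

open Pool.Agent.H587.FD

/-- the mesh of stage `m` -/
noncomputable def rho (g : ℕ) (s : ℝ) (m : ℕ) : ℝ := 1 / 128 ^ (3 * Km g s m)

lemma rho_pos (g : ℕ) (s : ℝ) (m : ℕ) : 0 < rho g s m := by unfold rho; positivity

lemma le_Km (g : ℕ) (hg : 1 ≤ g) (s : ℝ) (m : ℕ) : m ≤ Km g s m := by
  unfold Km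
  calc m = 1 * m * 1 := by ring
    _ ≤ g * m * (⌈(m : ℝ) ^ s⌉₊ + 1) := by gcongr; omega

lemma rho_tendsto (g : ℕ) (hg : 1 ≤ g) (s : ℝ) : Tendsto (fun m => rho g s m) atTop (𝓝 0) := by
  have h1 : Tendsto (fun m : ℕ => (1 / 128 : ℝ) ^ m) atTop (𝓝 0) :=
    tendsto_pow_atTop_nhds_zero_of_lt_one (by norm_num) (by norm_num)
  refine squeeze_zero (fun m => (rho_pos g s m).le) (fun m => ?_) h1
  unfold rho
  rw [one_div_pow]
  apply one_div_le_one_div_of_le (by positivity)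
  apply pow_le_pow_right₀ (by norm_num)
  have := le_Km g hg s m
  omega

lemma weight_le (g : ℕ) (s : ℝ) (m : ℕ) (θ : ℝ) (hθ : 0 ≤ θ) :
    Real.exp (Real.log (1 / rho g s m) ^ θ) ≤ Real.exp (1 * ((15 * Km g s m : ℕ) : ℝ) ^ θ) := by
  have h1 : Real.log (1 / rho g s m) = 3 * Km g s m * Real.log 128 := by
    unfold rho
    rw [one_div_one_div, Real.log_pow]
    push_cast; ring
  rw [h1, one_mul]
  have h0 : 0 ≤ Real.log 128 := Real.log_nonneg (by norm_num)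
  have := log128
  gcongr
  push_cast
  nlinarith [(Nat.cast_nonneg (Km g s m) : (0 : ℝ) ≤ (Km g s m : ℝ))]

theorem gauge (μ ν : Measure ℝ) [IsProbabilityMeasure μ] [IsFiniteMeasure ν] (C δ : ℝ) (hδ : 0 < δ)
    (hμ : ∀ n : ℤ, n ≠ 0 → ‖∫ x, e (n * x) ∂μ‖ ≤ C * |(n : ℝ)| ^ (-δ))
    (Γ : Set ℝ) (θ₂ c θ : ℝ) (hθ₂ : 0 ≤ θ₂) (hc : 0 < c) (hc2 : c * (1 + θ₂) < 2)
    (hθ0 : 0 ≤ θ) (hθ : θ < 1 - c / 2)
    (hΓ : ∃ C₂ : ℝ, ∀ K : ℕ, 1 ≤ K → ∃ F : Finset ℝ, (F.card : ℝ) ≤ Real.exp (C₂ * (K : ℝ) ^ θ₂) ∧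
      ∀ γ ∈ Γ, ∃ f ∈ F, |γ - f - round (γ - f)| ≤ Real.exp (-K))
    (ε : ℝ) (hε : 0 < ε) :
    ∃ (ι : Type) (_ : Countable ι) (a b r : ι → ℝ), (∀ i, 0 < r i ∧ r i < ε) ∧
      Exc Γ c ⊆ (⋃ i, Set.Ico (a i) (a i + r i) ×ˢ Set.Ico (b i) (b i + r i)) ∧
      ∑' i, ν (Set.Ico (a i) (a i + r i)) * μ (Set.Ico (b i) (b i + r i)) *
        ENNReal.ofReal (Real.exp (Real.log (1 / r i) ^ θ)) < ENNReal.ofReal ε := by
  -- parameters
  obtain ⟨g, hg', hg⟩ : ∃ g : ℕ, 18 ≤ g ∧ 13 + 11 * δ ≤ δ * g := by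
    obtain ⟨k, hk⟩ := exists_nat_ge (13 / δ + 11)
    refine ⟨k + 18, by omega, ?_⟩
    have h1 : δ * (13 / δ + 11) ≤ δ * k := by gcongr
    have h2 : δ * (13 / δ + 11) = 13 + 11 * δ := by field_simp
    push_cast
    nlinarith
  have hθ1 : θ < 1 := by linarith
  obtain ⟨s, hs, hs1, hs2, hs3⟩ : ∃ s : ℝ, 0 < s ∧ (1 + s) * θ < s ∧ θ₂ < s ∧ (1 + s) * c < 2 := by
    set s₀ : ℝ := max θ₂ (θ / (1 - θ)) with hs₀
    have h1 : 0 < 1 - θ := by linarith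
    have h2 : s₀ < 2 / c - 1 := by
      rw [hs₀, max_lt_iff]
      constructor
      · rw [lt_sub_iff_add_lt, lt_div_iff₀ hc]; linarith
      · rw [lt_sub_iff_add_lt, lt_div_iff₀ hc]
        have : θ / (1 - θ) + 1 = 1 / (1 - θ) := by field_simp; ring
        rw [this, div_mul_eq_mul_div, one_mul, div_lt_iff₀ h1]
        linarith
    obtain ⟨s, h3, h4⟩ := exists_between h2
    have h5 : θ₂ ≤ s₀ := le_max_left _ _
    have h6 : θ / (1 - θ) < s := lt_of_le_of_lt (le_max_right _ _) h3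
    rw [div_lt_iff₀ h1] at h6
    rw [lt_sub_iff_add_lt, lt_div_iff₀ hc] at h4
    exact ⟨s, by linarith, by linarith, by linarith, by linarith⟩
  obtain ⟨C₂, hΓ⟩ := hΓ
  have hGs : ∀ m : ℕ, 1 ≤ m → ∃ G : Finset ℝ,
      (G.card : ℝ) ≤ Real.exp (C₂ * ((30 * m : ℕ) : ℝ) ^ θ₂) ∧
      (∀ γ ∈ Γ, ∃ γ' ∈ G, ∃ n : ℤ, |γ - γ' - n| ≤ 1 / 128 ^ (6 * m)) := by
    intro m hm
    obtain ⟨F, hF1, hF2⟩ := hΓ (30 * m) (by omega)
    refine ⟨F, hF1, fun γ hγ => ?_⟩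
    obtain ⟨f, h1, h2⟩ := hF2 γ hγ
    refine ⟨f, h1, round (γ - f), h2.trans ?_⟩
    have := exp15 (2 * m)
    have e1 : 15 * (2 * m) = 30 * m := by ring
    have e2 : 3 * (2 * m) = 6 * m := by ring
    rw [e1, e2] at this
    exact this
  choose! G hG1 hG2 using hGs
  obtain ⟨mC, hmC⟩ : ∃ mC : ℕ, |C| ≤ 128 ^ mC :=
    (pow_unbounded_of_one_lt |C| (by norm_num : (1 : ℝ) < 128)).imp fun n hn => hn.le
  -- the weight of stage `m`
  set W : ℕ → ENNReal := fun m => ν Set.univ * ENNReal.ofReal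
    (Real.exp (1 * ((15 * (g * m * (⌈(m : ℝ) ^ s⌉₊ + 1)) : ℕ) : ℝ) ^ θ) *
      Real.exp (C₂ * ((30 * m : ℕ) : ℝ) ^ θ₂) * (1 / 4) ^ ⌈(m : ℝ) ^ s⌉₊) with hW
  have hWt : Tendsto W atTop (𝓝 0) := by
    have ht := ENNReal.tendsto_ofReal (union_tendsto 1 C₂ θ θ₂ s hs hs1 hs2 hθ0 g)
    rw [ENNReal.ofReal_zero] at ht
    have := ENNReal.Tendsto.const_mul (a := ν Set.univ) ht (Or.inr (measure_ne_top ν _))
    rwa [mul_zero] at this
  obtain ⟨ε', hε', hsum⟩ := ENNReal.exists_pos_sum_of_countable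
    (ENNReal.ofReal_pos.2 hε).ne' ℕ
  have hM : ∀ j : ℕ, ∃ m : ℕ, j ≤ m ∧ 2500 ≤ m ∧ mC ≤ m ∧ rho g s m < ε ∧ W m < ε' j := by
    intro j
    have h1 := hWt.eventually (gt_mem_nhds (show (0 : ENNReal) < ε' j by
      exact_mod_cast hε' j))
    have h2 := (rho_tendsto g (by omega) s).eventually (gt_mem_nhds hε)
    obtain ⟨m, hm1, hm2, hm3, hm4, hm5⟩ := (h1.and (h2.and ((eventually_ge_atTop j).and
      ((eventually_ge_atTop 2500).and (eventually_ge_atTop mC))))).exists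
    exact ⟨m, hm3, hm4, hm5, hm2, hm1⟩
  choose M hM1 hM2 hM3 hM4 hM5 using hM
  refine ⟨Σ j : ℕ, {x : ℤ × ℤ // P g s Γ (M j) (rho g s (M j)) x.1 x.2}, inferInstance,
    fun i => i.2.1.1 * rho g s (M i.1), fun i => i.2.1.2 * rho g s (M i.1),
    fun i => rho g s (M i.1), fun i => ⟨rho_pos _ _ _, hM4 i.1⟩, ?_, ?_⟩
  · intro p hp
    obtain ⟨j, hj⟩ := exc_stage g s c hs hc hs3 Γ p hp
    have h1 := hj (M j) (hM1 j)
    have h2 := mem_Iv_floor (rho g s (M j)) (rho_pos _ _ _) p.1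
    have h3 := mem_Iv_floor (rho g s (M j)) (rho_pos _ _ _) p.2
    rw [Set.mem_iUnion]
    exact ⟨⟨j, ⟨(⌊p.1 / rho g s (M j)⌋, ⌊p.2 / rho g s (M j)⌋), p, h2, h3, h1⟩⟩, h2, h3⟩
  · refine lt_of_le_of_lt ?_ hsum
    rw [ENNReal.tsum_sigma']
    refine ENNReal.tsum_le_tsum fun j => ?_
    refine le_trans ?_ (hM5 j).le
    have hst := stage_sum μ ν |C| δ (abs_nonneg C) hδ (fun n hn => (hμ n hn).trans (by
      gcongr; exact le_abs_self C)) g hg' hg s Γ (M j) (hM2 j)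
      (hmC.trans (pow_le_pow_right₀ (by norm_num) (hM3 j))) (G (M j))
      (hG2 (M j) (by have := hM2 j; omega)) (rho g s (M j)) rfl
    calc ∑' x : {x : ℤ × ℤ // P g s Γ (M j) (rho g s (M j)) x.1 x.2},
          ν (Set.Ico (x.1.1 * rho g s (M j)) (x.1.1 * rho g s (M j) + rho g s (M j))) *
          μ (Set.Ico (x.1.2 * rho g s (M j)) (x.1.2 * rho g s (M j) + rho g s (M j))) *
          ENNReal.ofReal (Real.exp (Real.log (1 / rho g s (M j)) ^ θ)) =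
        (∑' x : {x : ℤ × ℤ // P g s Γ (M j) (rho g s (M j)) x.1 x.2},
          ν (Iv (rho g s (M j)) x.1.1) * μ (Iv (rho g s (M j)) x.1.2)) *
          ENNReal.ofReal (Real.exp (Real.log (1 / rho g s (M j)) ^ θ)) := by
          rw [ENNReal.tsum_mul_right]
          rfl
      _ = (∑' x : ℤ × ℤ, {x : ℤ × ℤ | P g s Γ (M j) (rho g s (M j)) x.1 x.2}.indicator
          (fun x => ν (Iv (rho g s (M j)) x.1) * μ (Iv (rho g s (M j)) x.2)) x) *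
          ENNReal.ofReal (Real.exp (Real.log (1 / rho g s (M j)) ^ θ)) := by
          rw [← _root_.tsum_subtype {x : ℤ × ℤ | P g s Γ (M j) (rho g s (M j)) x.1 x.2}
            (fun x => ν (Iv (rho g s (M j)) x.1) * μ (Iv (rho g s (M j)) x.2))]
          rfl
      _ ≤ (ν Set.univ * ENNReal.ofReal ((G (M j)).card * (1 / 4) ^ ⌈((M j : ℕ) : ℝ) ^ s⌉₊)) *
          ENNReal.ofReal (Real.exp (1 * ((15 * Km g s (M j) : ℕ) : ℝ) ^ θ)) := by
          exact mul_le_mul' hst (ENNReal.ofReal_le_ofReal (weight_le g s (M j) θ hθ0))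
      _ = ν Set.univ * ENNReal.ofReal (Real.exp (1 * ((15 * Km g s (M j) : ℕ) : ℝ) ^ θ) *
          (G (M j)).card * (1 / 4) ^ ⌈((M j : ℕ) : ℝ) ^ s⌉₊) := by
          rw [mul_assoc, ← ENNReal.ofReal_mul (by positivity)]
          congr 2; ring
      _ ≤ W (M j) := by
          rw [hW]
          have h1 := hG1 (M j) (by have := hM2 j; omega)
          simp only
          unfold Km
          gcongr

end Pool.Agent.H587.GA
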